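import Pool.Agent.Lib_MP_9e7d46_ao.Half
import Pool.Agent.Lib_MP_9e7d46_os.Main

/-!
# Growing an oriented join

`J₁`: arcs whose head is charged (they count on the sink sides not containing the root), `J₂`: arcs whose
tail is charged (they count on the source sides not containing the root).
-/

set_option autoImplicit false
set_option linter.unusedSectionVars false

namespace AO9e
open Finset Classical Pool.Agent.DJ9e OS9e

variable {V A : Type} [Fintype V] [Fintype A]

/-- number of arcs of `F` crossing `U` -/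
noncomputable def dF (s t : A → V) (F : Finset A) (U : Set V) : ℕ :=
  ∑ a ∈ F, if (s a ∈ U ↔ t a ∈ U) then 0 else 1

/-- net out-degree in `F` -/
noncomputable def bF (s t : A → V) (F : Finset A) (v : V) : ℤ :=
  ∑ a ∈ F, ((if s a = v then 1 else 0) - (if t a = v then 1 else 0))

/-- parity of the degree in `F` -/
noncomputable def dg (s t : A → V) (F : Finset A) (v : V) : ZMod 2 :=
  ∑ a ∈ F, ((if s a = v then 1 else 0) + (if t a = v then 1 else 0))

theorem dF_univ (s t : A → V) (U : Set V) : dF s t univ U = dd s t U := rfl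

theorem bF_univ (s t : A → V) (v : V) : bF s t univ v = bb s t v := rfl

theorem dF_swap (s t : A → V) (F : Finset A) (U : Set V) : dF t s F U = dF s t F U := by
  unfold dF
  refine sum_congr rfl fun a _ => ?_
  by_cases h1 : s a ∈ U <;> by_cases h2 : t a ∈ U <;> simp [h1, h2]

theorem bF_swap (s t : A → V) (F : Finset A) (v : V) : bF t s F v = - bF s t F v := by
  unfold bF
  rw [← sum_neg_distrib]
  refine sum_congr rfl fun a _ => ?_
  ring

theorem dg_swap (s t : A → V) (F : Finset A) (v : V) : dg t s F v = dg s t F v := by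
  unfold dg
  refine sum_congr rfl fun a _ => ?_
  ring

theorem dF_mono (s t : A → V) {F G : Finset A} (h : F ⊆ G) (U : Set V) :
    dF s t F U ≤ dF s t G U := by
  unfold dF
  exact sum_le_sum_of_subset h

theorem dF_union (s t : A → V) {F G : Finset A} (h : Disjoint F G) (U : Set V) :
    dF s t (F ∪ G) U = dF s t F U + dF s t G U := by
  unfold dF
  exact sum_union h

theorem dg_union (s t : A → V) {F G : Finset A} (h : Disjoint F G) (v : V) :
    dg s t (F ∪ G) v = dg s t F v + dg s t G v := by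
  unfold dg
  exact sum_union h

theorem xs_bF (s t : A → V) (F : Finset A) (U : Set V) :
    xs (bF s t F) U = ∑ a ∈ F, ((if s a ∈ U then 1 else 0) - (if t a ∈ U then 1 else 0)) := by
  unfold xs bF
  have h1 : ∀ v, (if v ∈ U then ∑ a ∈ F, ((if s a = v then (1 : ℤ) else 0) -
      (if t a = v then 1 else 0)) else 0) =
      ∑ a ∈ F, ((if s a = v then (if v ∈ U then 1 else 0) else 0) -
        (if t a = v then (if v ∈ U then 1 else 0) else 0)) := by
    intro v
    by_cases hv : v ∈ U <;> simp [hv]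
  rw [sum_congr rfl fun v _ => h1 v, sum_comm]
  refine sum_congr rfl fun a _ => ?_
  rw [sum_sub_distrib, sum_ite_eq, sum_ite_eq]
  simp

theorem xs_bF_noIn (s t : A → V) (F : Finset A) (U : Set V) (h : NoIn s t U) :
    xs (bF s t F) U = (dF s t F U : ℤ) := by
  rw [xs_bF]
  unfold dF
  push_cast
  refine sum_congr rfl fun a _ => ?_
  have := h a
  by_cases h1 : s a ∈ U <;> by_cases h2 : t a ∈ U <;> simp_all

theorem xs_bF_noOut (s t : A → V) (F : Finset A) (U : Set V) (h : NoOut s t U) :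
    xs (bF s t F) U = -(dF s t F U : ℤ) := by
  rw [xs_bF]
  unfold dF
  push_cast
  rw [← sum_neg_distrib]
  refine sum_congr rfl fun a _ => ?_
  have := h a
  by_cases h1 : s a ∈ U <;> by_cases h2 : t a ∈ U <;> simp_all

theorem xs_sub' (x y : V → ℤ) (U : Set V) : xs (fun v => x v - y v) U = xs x U - xs y U := by
  unfold xs
  rw [← sum_sub_distrib]
  refine sum_congr rfl fun v _ => ?_
  split_ifs <;> simp

theorem bF_dg (s t : A → V) (F : Finset A) (v : V) : ((bF s t F v : ℤ) : ZMod 2) = dg s t F v := by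
  unfold bF dg
  push_cast
  refine sum_congr rfl fun a _ => ?_
  rw [sub_eq_add_neg, ZMod.neg_eq_self_mod_two]

theorem dF_dg (s t : A → V) (F : Finset A) (v : V) :
    ((dF s t F {v} : ℕ) : ZMod 2) = dg s t F v := by
  unfold dF dg
  push_cast
  refine sum_congr rfl fun a _ => ?_
  simp only [Set.mem_singleton_iff]
  by_cases h1 : s a = v <;> by_cases h2 : t a = v <;> simp [h1, h2]
  decide

/-- the degree parities inside `X` -/
noncomputable def dX (s t : A → V) (X : Set V) (v : V) : ZMod 2 :=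
  if v ∈ X then dg s t univ v else 0

theorem dX_pos (s t : A → V) {X : Set V} {v : V} (h : v ∈ X) : dX s t X v = dg s t univ v := if_pos h

theorem dX_neg (s t : A → V) {X : Set V} {v : V} (h : v ∉ X) : dX s t X v = 0 := if_neg h

theorem dX_swap (s t : A → V) (X : Set V) (v : V) : dX t s X v = dX s t X v := by
  unfold dX
  rw [dg_swap]

/-- the arc `a` may not be added to `J` -/
def Blk (s t : A → V) (r : V) (K : ℕ) (J : Finset A) (a : A) : Prop :=
  ∃ U : Set V, r ∉ U ∧ NoIn s t U ∧ s a ∈ U ∧ t a ∉ U ∧ K + dF s t J U = dd s t U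

/-- the capacity condition -/
def Cap (s t : A → V) (r : V) (K : ℕ) (J : Finset A) : Prop :=
  ∀ U : Set V, U.Nonempty → r ∉ U → NoIn s t U → K + dF s t J U ≤ dd s t U

theorem Blk.mono {s t : A → V} {r : V} {K : ℕ} {J J' : Finset A} {a : A} (h : Blk s t r K J a)
    (hJ : J ⊆ J') (hc : Cap s t r K J') : Blk s t r K J' a := by
  obtain ⟨U, h1, h2, h3, h4, h5⟩ := h
  refine ⟨U, h1, h2, h3, h4, ?_⟩
  have h6 := dF_mono s t hJ U
  have h7 := hc U ⟨_, h3⟩ h1 h2
  omega

/-- states of the growth process: `Q` the vertices reached so far, `R` those of the current tree -/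
structure St (s t : A → V) (r : V) (K : ℕ) (Q R : Set V) (J₁ J₂ : Finset A) : Prop where
  rQ : r ∈ Q
  RQ : R ⊆ Q
  disj : Disjoint J₁ J₂
  ends : ∀ a ∈ J₁ ∪ J₂, s a ∈ Q ∧ t a ∈ Q
  cap1 : Cap t s r K J₁
  cap2 : Cap s t r K J₂
  join : ∀ c : V → ZMod 2, (∀ v, v ∉ R → c v = 0) → ∑ v, c v = 0 →
    ∃ J ⊆ J₁ ∪ J₂, ∀ v, dg s t J v = c v + dX s t (Q \ R) v
  blk : ∀ a, (s a ∈ Q \ R ∧ t a ∉ Q) ∨ (t a ∈ Q \ R ∧ s a ∉ Q) →
    Blk t s r K J₁ a ∧ Blk s t r K J₂ a
  bal : xs (bb s t) (Q \ R) = 0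

theorem St.swap {s t : A → V} {r : V} {K : ℕ} {Q R : Set V} {J₁ J₂ : Finset A}
    (h : St s t r K Q R J₁ J₂) : St t s r K Q R J₂ J₁ := by
  refine ⟨h.rQ, h.RQ, h.disj.symm, ?_, h.cap2, h.cap1, ?_, ?_, ?_⟩
  · intro a ha
    rw [union_comm] at ha
    exact (h.ends a ha).symm
  · intro c h1 h2
    obtain ⟨J, hJ, h3⟩ := h.join c h1 h2
    refine ⟨J, by rwa [union_comm], fun v => ?_⟩
    rw [dg_swap, dX_swap]
    exact h3 v
  · intro a ha
    exact (h.blk a ha.symm).symm
  · have : bb t s = fun v => - bb s t v := funext fun v => bb_swap s t v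
    rw [this, xs_neg', h.bal, neg_zero]

/-- adding an arc -/
theorem St.add {s t : A → V} {r : V} {K : ℕ} {Q R : Set V} {J₁ J₂ : Finset A}
    (h : St s t r K Q R J₁ J₂) {a : A} {x y : V} (hx : x ∈ R) (hy : y ∉ Q)
    (hj : (s a = x ∧ t a = y) ∨ (s a = y ∧ t a = x)) (hb : ¬ Blk s t r K J₂ a) :
    St s t r K (insert y Q) (insert y R) J₁ (insert a J₂) := by
  have hxQ : x ∈ Q := h.RQ hx
  have hxy : x ≠ y := fun e => hy (e ▸ hxQ)
  have haJ : a ∉ J₁ ∪ J₂ := by
    intro ha
    have h1 := h.ends a ha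
    rcases hj with ⟨h2, h3⟩ | ⟨h2, h3⟩
    · exact hy (h3 ▸ h1.2)
    · exact hy (h2 ▸ h1.1)
  have ha1 : a ∉ J₁ := fun h' => haJ (mem_union_left _ h')
  have ha2 : a ∉ J₂ := fun h' => haJ (mem_union_right _ h')
  have hset : insert y Q \ insert y R = Q \ R := by
    ext v
    simp only [Set.mem_sdiff, Set.mem_insert_iff, not_or]
    constructor
    · rintro ⟨h1 | h1, h2, h3⟩
      · exact absurd h1 h2
      · exact ⟨h1, h3⟩
    · rintro ⟨h1, h2⟩
      exact ⟨Or.inr h1, fun e => hy (e ▸ h1), h2⟩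
  have hcap2 : Cap s t r K (insert a J₂) := by
    intro U hU hrU hin
    have h1 : dF s t (insert a J₂) U = (if (s a ∈ U ↔ t a ∈ U) then 0 else 1) + dF s t J₂ U := by
      unfold dF
      rw [sum_insert ha2]
    have h2 := h.cap2 U hU hrU hin
    rw [h1]
    by_cases hc : s a ∈ U ↔ t a ∈ U
    · rw [if_pos hc]
      omega
    · rw [if_neg hc]
      have hs : s a ∈ U := by
        by_contra hs
        by_cases ht : t a ∈ U
        · exact hs (hin a ht)
        · exact hc ⟨fun h => absurd h hs, fun h => absurd h ht⟩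
      have ht : t a ∉ U := fun ht => hc ⟨fun _ => ht, fun _ => hs⟩
      have h3 : K + dF s t J₂ U ≠ dd s t U := fun he => hb ⟨U, hrU, hin, hs, ht, he⟩
      omega
  refine ⟨Set.mem_insert_of_mem _ h.rQ, Set.insert_subset_insert h.RQ, ?_, ?_, h.cap1, hcap2, ?_,
    ?_, ?_⟩
  · rw [disjoint_insert_right]
    exact ⟨ha1, h.disj⟩
  · intro b hb'
    rw [mem_union, mem_insert] at hb'
    by_cases hba : b = a
    · subst hba
      rcases hj with ⟨h2, h3⟩ | ⟨h2, h3⟩ <;> rw [h2, h3]
      · exact ⟨Set.mem_insert_of_mem _ hxQ, Set.mem_insert _ _⟩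
      · exact ⟨Set.mem_insert _ _, Set.mem_insert_of_mem _ hxQ⟩
    · have h1 := h.ends b (by
        rw [mem_union]
        tauto)
      exact ⟨Set.mem_insert_of_mem _ h1.1, Set.mem_insert_of_mem _ h1.2⟩
  · intro c hc1 hc2
    have htwo : ∀ z : ZMod 2, z + z = 0 := by decide
    obtain ⟨J, hJ, h3⟩ := h.join (fun v => c v + c y * ((if v = x then 1 else 0) +
      (if v = y then 1 else 0))) (by
      intro v hv
      by_cases hvy : v = y
      · subst hvy
        rw [if_neg hxy.symm, if_pos rfl, zero_add, mul_one]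
        exact htwo _
      · have hvx : v ≠ x := fun e => hv (e ▸ hx)
        rw [if_neg hvx, if_neg hvy, add_zero, mul_zero, add_zero]
        exact hc1 v (by
          rintro (h' | h')
          · exact hvy h'
          · exact hv h')) (by
      rw [sum_add_distrib, hc2, ← mul_sum, sum_add_distrib, sum_ite_eq', sum_ite_eq',
        if_pos (mem_univ _), if_pos (mem_univ _), htwo, mul_zero, add_zero])
    rw [hset]
    have haJ' : a ∉ J := fun h' => haJ (hJ h')
    have hcy : c y = 0 ∨ c y = 1 := by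
      have : ∀ z : ZMod 2, z = 0 ∨ z = 1 := by decide
      exact this _
    rcases hcy with hcy | hcy
    · refine ⟨J, hJ.trans ?_, fun v => ?_⟩
      · exact union_subset_union_right (subset_insert _ _)
      · rw [h3 v, hcy, zero_mul, add_zero]
    · refine ⟨insert a J, ?_, fun v => ?_⟩
      · intro b hb'
        rw [mem_insert] at hb'
        rcases hb' with rfl | hb'
        · exact mem_union_right _ (mem_insert_self _ _)
        · exact union_subset_union_right (subset_insert _ _) (hJ hb')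
      · have h4 : dg s t (insert a J) v =
            ((if s a = v then 1 else 0) + (if t a = v then 1 else 0)) + dg s t J v := by
          unfold dg
          rw [sum_insert haJ']
        rw [h4, h3 v, hcy, one_mul]
        have h5 : ((if s a = v then (1 : ZMod 2) else 0) + (if t a = v then 1 else 0)) =
            (if v = x then 1 else 0) + (if v = y then 1 else 0) := by
          rcases hj with ⟨e1, e2⟩ | ⟨e1, e2⟩
          · rw [e1, e2]
            simp only [eq_comm]
          · rw [e1, e2, add_comm]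
            simp only [eq_comm]
        rw [h5]
        have h6 := htwo ((if v = x then (1 : ZMod 2) else 0) + (if v = y then 1 else 0))
        generalize (if v = x then (1 : ZMod 2) else 0) + (if v = y then 1 else 0) = z at h6 ⊢
        calc z + (c v + z + dX s t (Q \ R) v)
            = (z + z) + (c v + dX s t (Q \ R) v) := by ring
          _ = c v + dX s t (Q \ R) v := by rw [h6, zero_add]
  · intro b hb'
    rw [hset] at hb'
    obtain ⟨h1, h2⟩ := h.blk b (by
      rcases hb' with ⟨h1, h2⟩ | ⟨h1, h2⟩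
      · exact Or.inl ⟨h1, fun h' => h2 (Set.mem_insert_of_mem _ h')⟩
      · exact Or.inr ⟨h1, fun h' => h2 (Set.mem_insert_of_mem _ h')⟩)
    exact ⟨h1, h2.mono (subset_insert _ _) hcap2⟩
  · rw [hset]
    exact h.bal

/-- the hypothesis: all source sides without the root have at least `K` arcs, and those with exactly
`K` arcs contain a vertex which reaches the root -/
def HypA (s t : A → V) (r : V) (K : ℕ) : Prop :=
  ∀ U : Set V, U.Nonempty → r ∉ U → NoIn s t U →
    K ≤ dd s t U ∧ (dd s t U = K → ∃ u ∈ U, Rch s t u r)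

theorem stuck_half {s t : A → V} {r : V} {K : ℕ} {Q R : Set V} {J₁ J₂ : Finset A}
    (hH : HypA s t r K) (h : St s t r K Q R J₁ J₂)
    (hst : ∀ a, (s a ∈ Q ∧ t a ∉ Q) ∨ (t a ∈ Q ∧ s a ∉ Q) →
      Blk t s r K J₁ a ∧ Blk s t r K J₂ a) : xs (bb s t) Qᶜ ≤ 0 := by
  have hout : ∀ U : Set V, U ⊆ Qᶜ → dF s t J₂ U = 0 := by
    intro U hU
    unfold dF
    refine sum_eq_zero fun a ha => ?_
    have h1 := h.ends a (mem_union_right _ ha)
    rw [if_pos]
    exact ⟨fun h' => absurd h1.1 (hU h'), fun h' => absurd h1.2 (hU h')⟩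
  -- vertices outside `Q` do not reach the root
  have hhub : ∀ u, u ∉ Q → ¬ Rch s t u r := by
    intro u hu hc
    have : ∀ v, Rch s t v r → v ∈ Q := by
      intro v hv
      unfold Rch at hv
      induction hv using Relation.ReflTransGen.head_induction_on with
      | refl => exact h.rQ
      | head hab hbc ih =>
        obtain ⟨a, rfl, rfl⟩ := hab
        by_contra hs
        obtain ⟨⟨W, w1, w2, w3, w4, w5⟩, -⟩ := hst a (Or.inr ⟨ih, hs⟩)
        exact w1 (closed_of_noOut (s := s) (t := t) (Z := W) (fun b hb => w2 b hb) w3 hbc)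
    exact hu (this u hc)
  have key := half (s := s) (t := t) (r := r) (w := fun v => bb s t v - bF s t J₂ v)
    (K := (K : ℤ)) (Q := Q) h.rQ ?_ ?_ ?_ ?_
  · have h1 : xs (bF s t J₂) Qᶜ = 0 := by
      rw [xs_bF]
      refine sum_eq_zero fun a ha => ?_
      have h1 := h.ends a (mem_union_right _ ha)
      simp [h1.1, h1.2]
    rw [xs_sub', h1, sub_zero] at key
    exact key
  · intro U hU hrU hin
    have h1 := h.cap2 U hU hrU hin
    rw [xs_sub', xs_bb_noIn s t U hin, xs_bF_noIn s t J₂ U hin]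
    omega
  · intro U hU hUQ hin
    rw [xs_sub', xs_bb_noIn s t U hin, xs_bF_noIn s t J₂ U hin, hout U hUQ]
    have hrU : r ∉ U := fun h' => hUQ h' h.rQ
    obtain ⟨h1, h2⟩ := hH U hU hrU hin
    have h3 : dd s t U ≠ K := by
      intro he
      obtain ⟨u, hu, hur⟩ := h2 he
      exact hhub u (hUQ hu) hur
    omega
  · intro a hs ht
    obtain ⟨-, U, u1, u2, u3, u4, u5⟩ := hst a (Or.inr ⟨ht, hs⟩)
    refine ⟨U, u1, u2, u3, u4, ?_⟩
    rw [xs_sub', xs_bb_noIn s t U u2, xs_bF_noIn s t J₂ U u2]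
    omega
  · intro W hW hout'
    rw [xs_sub', xs_bb_noOut s t W hout', xs_bF_noOut s t J₂ W hout', hout W hW]
    simp

theorem stuck {s t : A → V} {r : V} {K : ℕ} {Q R : Set V} {J₁ J₂ : Finset A}
    (hH1 : HypA s t r K) (hH2 : HypA t s r K) (h : St s t r K Q R J₁ J₂)
    (hst : ∀ a, (s a ∈ Q ∧ t a ∉ Q) ∨ (t a ∈ Q ∧ s a ∉ Q) →
      Blk t s r K J₁ a ∧ Blk s t r K J₂ a) : xs (bb s t) Qᶜ = 0 := by
  have h1 := stuck_half hH1 h hst
  have h2 := stuck_half hH2 h.swap (fun a ha => (hst a ha.symm).symm)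
  have : bb t s = fun v => - bb s t v := funext fun v => bb_swap s t v
  rw [this, xs_neg'] at h2
  linarith

theorem xs_bb_univ (s t : A → V) : xs (bb s t) Set.univ = 0 := by
  rw [xs_bb]
  simp

theorem sum_dg_of_xs {s t : A → V} {X : Set V} (h : xs (bb s t) X = 0) :
    ∑ v, dX s t X v = 0 := by
  have h1 : ((xs (bb s t) X : ℤ) : ZMod 2) = ∑ v, dX s t X v := by
    unfold xs dX
    push_cast
    refine sum_congr rfl fun v _ => ?_
    rw [← bF_dg]
    split_ifs <;> simp [bF_univ]
  rw [← h1, h, Int.cast_zero]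

/-- starting a new tree -/
theorem St.restart {s t : A → V} {r : V} {K : ℕ} {Q R : Set V} {J₁ J₂ : Finset A}
    (hH1 : HypA s t r K) (hH2 : HypA t s r K) (h : St s t r K Q R J₁ J₂)
    (hst : ∀ a, (s a ∈ R ∧ t a ∉ Q) ∨ (t a ∈ R ∧ s a ∉ Q) →
      Blk t s r K J₁ a ∧ Blk s t r K J₂ a) {y : V} (hy : y ∉ Q) :
    St s t r K (insert y Q) {y} J₁ J₂ := by
  have hst' : ∀ a, (s a ∈ Q ∧ t a ∉ Q) ∨ (t a ∈ Q ∧ s a ∉ Q) →
      Blk t s r K J₁ a ∧ Blk s t r K J₂ a := by
    intro a ha
    by_cases hR : s a ∈ R ∨ t a ∈ R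
    · refine hst a ?_
      rcases ha with ⟨h1, h2⟩ | ⟨h1, h2⟩
      · rcases hR with hR | hR
        · exact Or.inl ⟨hR, h2⟩
        · exact absurd (h.RQ hR) h2
      · rcases hR with hR | hR
        · exact absurd (h.RQ hR) h2
        · exact Or.inr ⟨hR, h2⟩
    · push Not at hR
      refine h.blk a ?_
      rcases ha with ⟨h1, h2⟩ | ⟨h1, h2⟩
      · exact Or.inl ⟨⟨h1, hR.1⟩, h2⟩
      · exact Or.inr ⟨⟨h1, hR.2⟩, h2⟩
  have hbal := stuck hH1 hH2 h hst'
  have hQ : xs (bb s t) Q = 0 := by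
    have := xs_compl (bb s t) Q
    rw [hbal, xs_bb_univ] at this
    linarith
  have hR : xs (bb s t) R = 0 := by
    have h1 := xs_diff (bb s t) h.RQ
    rw [h.bal, hQ] at h1
    linarith
  have hset : insert y Q \ {y} = Q := by
    ext v
    simp only [Set.mem_sdiff, Set.mem_insert_iff, Set.mem_singleton_iff]
    constructor
    · rintro ⟨h1 | h1, h2⟩
      · exact absurd h1 h2
      · exact h1
    · intro h1
      exact ⟨Or.inr h1, fun e => hy (e ▸ h1)⟩
  refine ⟨Set.mem_insert_of_mem _ h.rQ, by simp, h.disj, ?_, h.cap1, h.cap2, ?_, ?_, ?_⟩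
  · intro a ha
    have := h.ends a ha
    exact ⟨Set.mem_insert_of_mem _ this.1, Set.mem_insert_of_mem _ this.2⟩
  · intro c hc1 hc2
    have hc0 : ∀ v, c v = 0 := by
      have hy0 : c y = 0 := by
        rw [← hc2]
        symm
        refine sum_eq_single y (fun v _ hv => hc1 v (by simpa using hv)) (fun h' => absurd (mem_univ y) h')
      intro v
      by_cases hv : v = y
      · rw [hv]; exact hy0
      · exact hc1 v (by simpa using hv)
    obtain ⟨J, hJ, h3⟩ := h.join (dX s t R)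
      (fun v hv => dX_neg s t hv) (sum_dg_of_xs hR)
    refine ⟨J, hJ, fun v => ?_⟩
    rw [h3 v, hc0 v, hset]
    by_cases h1 : v ∈ R
    · have h2 : v ∈ Q := h.RQ h1
      have h4 : v ∉ Q \ R := fun h' => h'.2 h1
      rw [dX_pos s t h1, dX_neg s t h4, dX_pos s t h2, add_zero, zero_add]
    · by_cases h2 : v ∈ Q
      · rw [dX_neg s t h1, dX_pos s t (X := Q \ R) ⟨h2, h1⟩, dX_pos s t h2]
      · have h4 : v ∉ Q \ R := fun h' => h2 h'.1
        rw [dX_neg s t h1, dX_neg s t h4, dX_neg s t h2]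
  · intro a ha
    rw [hset] at ha
    refine hst' a ?_
    rcases ha with ⟨h1, h2⟩ | ⟨h1, h2⟩
    · exact Or.inl ⟨h1, fun h' => h2 (Set.mem_insert_of_mem _ h')⟩
    · exact Or.inr ⟨h1, fun h' => h2 (Set.mem_insert_of_mem _ h')⟩
  · rw [hset]
    exact hQ

/-- the conclusion of the growth process -/
def Fin9 (s t : A → V) (r : V) (K : ℕ) : Prop :=
  ∃ J₁ J₂ : Finset A, Disjoint J₁ J₂ ∧ Cap t s r K J₁ ∧ Cap s t r K J₂ ∧
    ∀ v, dg s t (J₁ ∪ J₂) v = dg s t univ v

theorem grow {s t : A → V} {r : V} {K : ℕ} (hH1 : HypA s t r K) (hH2 : HypA t s r K) (n : ℕ) :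
    ∀ (Q R : Set V) (J₁ J₂ : Finset A), St s t r K Q R J₁ J₂ → Qᶜ.ncard = n → Fin9 s t r K := by
  induction n using Nat.strong_induction_on with
  | _ n IH =>
  intro Q R J₁ J₂ h hn
  have hlt : ∀ y, y ∉ Q → (insert y Q)ᶜ.ncard < n := by
    intro y hy
    rw [← hn]
    refine Set.ncard_lt_ncard ⟨?_, ?_⟩ (Set.toFinite _)
    · exact Set.compl_subset_compl.2 (Set.subset_insert _ _)
    · intro h'
      exact h' hy (Set.mem_insert _ _)
  rcases Qᶜ.eq_empty_or_nonempty with he | ⟨y, hy⟩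
  · have hQ : Q = Set.univ := Set.compl_empty_iff.1 he
    have hR : xs (bb s t) R = 0 := by
      have h1 := xs_diff (bb s t) h.RQ
      rw [h.bal, hQ, xs_bb_univ] at h1
      linarith
    obtain ⟨J, hJ, h3⟩ := h.join (dX s t R)
      (fun v hv => dX_neg s t hv) (sum_dg_of_xs hR)
    refine ⟨J₁ ∩ J, J₂ ∩ J, ?_, ?_, ?_, fun v => ?_⟩
    · exact h.disj.mono inter_subset_left inter_subset_left
    · intro U hU hrU hin
      have h4 := h.cap1 U hU hrU hin
      have h5 := dF_mono t s (inter_subset_left : J₁ ∩ J ⊆ J₁) U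
      omega
    · intro U hU hrU hin
      have h4 := h.cap2 U hU hrU hin
      have h5 := dF_mono s t (inter_subset_left : J₂ ∩ J ⊆ J₂) U
      omega
    · have h4 : J₁ ∩ J ∪ J₂ ∩ J = J := by
        rw [← union_inter_distrib_right]
        exact inter_eq_right.2 hJ
      rw [h4, h3 v, hQ]
      by_cases h1 : v ∈ R
      · have h4 : v ∉ Set.univ \ R := fun h' => h'.2 h1
        rw [dX_pos s t h1, dX_neg s t h4, add_zero]
      · rw [dX_neg s t h1, dX_pos s t (X := Set.univ \ R) ⟨Set.mem_univ v, h1⟩, zero_add]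
  · by_cases hst : ∀ a, (s a ∈ R ∧ t a ∉ Q) ∨ (t a ∈ R ∧ s a ∉ Q) →
      Blk t s r K J₁ a ∧ Blk s t r K J₂ a
    · exact IH _ (hlt y hy) _ _ _ _ (h.restart hH1 hH2 hst hy) rfl
    · push Not at hst
      obtain ⟨a, ha, hb⟩ := hst
      by_cases hb2 : Blk s t r K J₂ a
      · have hb1 : ¬ Blk t s r K J₁ a := fun h' => hb h' hb2
        rcases ha with ⟨h1, h2⟩ | ⟨h1, h2⟩
        · exact IH _ (hlt _ h2) _ _ _ _ (h.swap.add h1 h2 (Or.inr ⟨rfl, rfl⟩) hb1).swap rfl
        · exact IH _ (hlt _ h2) _ _ _ _ (h.swap.add h1 h2 (Or.inl ⟨rfl, rfl⟩) hb1).swap rfl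
      · rcases ha with ⟨h1, h2⟩ | ⟨h1, h2⟩
        · exact IH _ (hlt _ h2) _ _ _ _ (h.add h1 h2 (Or.inl ⟨rfl, rfl⟩) hb2) rfl
        · exact IH _ (hlt _ h2) _ _ _ _ (h.add h1 h2 (Or.inr ⟨rfl, rfl⟩) hb2) rfl

/-- the oriented join -/
theorem exists_join {s t : A → V} {r : V} {K : ℕ} (hH1 : HypA s t r K) (hH2 : HypA t s r K) :
    Fin9 s t r K := by
  refine grow hH1 hH2 _ {r} {r} ∅ ∅ ⟨Set.mem_singleton r, le_rfl, disjoint_empty_left _, ?_, ?_, ?_,
    ?_, ?_, ?_⟩ rfl
  · intro a ha
    simp at ha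
  · intro U hU hrU hin
    have : dF t s ∅ U = 0 := rfl
    rw [this]
    exact (hH2 U hU hrU hin).1
  · intro U hU hrU hin
    have : dF s t ∅ U = 0 := rfl
    rw [this]
    exact (hH1 U hU hrU hin).1
  · intro c hc1 hc2
    have hc0 : ∀ v, c v = 0 := by
      have hy0 : c r = 0 := by
        rw [← hc2]
        symm
        refine sum_eq_single r (fun v _ hv => hc1 v (by simpa using hv)) (fun h' => absurd (mem_univ r) h')
      intro v
      by_cases hv : v = r
      · rw [hv]; exact hy0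
      · exact hc1 v (by simpa using hv)
    refine ⟨∅, empty_subset _, fun v => ?_⟩
    rw [hc0 v, Set.sdiff_self, dX_neg s t (Set.notMem_empty v), add_zero]
    rfl
  · intro a ha
    rw [Set.sdiff_self] at ha
    rcases ha with ⟨h1, -⟩ | ⟨h1, -⟩
    · exact absurd h1 (Set.notMem_empty _)
    · exact absurd h1 (Set.notMem_empty _)
  · rw [Set.sdiff_self]
    unfold xs
    simp

end AO9e
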