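import Pool.Agent.Lib_MP_9e7d46_os.Cover

/-!
# The balance lemma for stuck states
-/

set_option autoImplicit false
set_option linter.unusedSectionVars false

namespace AO9e
open Finset Classical Pool.Agent.DJ9e OS9e

variable {V A : Type} [Fintype V] [Fintype A]

theorem xs_mod (w : V → ℤ) (X Y : Set V) : xs w (X ∩ Y) + xs w (X ∪ Y) = xs w X + xs w Y := by
  unfold xs
  rw [← sum_add_distrib, ← sum_add_distrib]
  refine sum_congr rfl fun v _ => ?_
  by_cases h1 : v ∈ X <;> by_cases h2 : v ∈ Y <;> simp [h1, h2]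

theorem xs_diff (w : V → ℤ) {X Y : Set V} (h : Y ⊆ X) : xs w (X \ Y) = xs w X - xs w Y := by
  unfold xs
  rw [← sum_sub_distrib]
  refine sum_congr rfl fun v _ => ?_
  by_cases h1 : v ∈ X <;> by_cases h2 : v ∈ Y
  · simp [h1, h2]
  · simp [h1, h2]
  · exact absurd (h h2) h1
  · simp [h1, h2]

theorem xs_compl (w : V → ℤ) (X : Set V) : xs w Xᶜ = xs w Set.univ - xs w X := by
  rw [Set.compl_eq_univ_sdiff]
  exact xs_diff w (Set.subset_univ X)

theorem NoIn.inter {s t : A → V} {X Y : Set V} (hX : NoIn s t X) (hY : NoIn s t Y) :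
    NoIn s t (X ∩ Y) := fun a ha => ⟨hX a ha.1, hY a ha.2⟩

theorem NoIn.union {s t : A → V} {X Y : Set V} (hX : NoIn s t X) (hY : NoIn s t Y) :
    NoIn s t (X ∪ Y) := fun a ha => ha.imp (hX a) (hY a)

/-- tight source sides -/
def Tight (s t : A → V) (r : V) (w : V → ℤ) (K : ℤ) (U : Set V) : Prop :=
  U.Nonempty ∧ r ∉ U ∧ NoIn s t U ∧ xs w U = K

theorem tight_inter {s t : A → V} {r : V} {w : V → ℤ} {K : ℤ}
    (h1 : ∀ U : Set V, U.Nonempty → r ∉ U → NoIn s t U → K ≤ xs w U) {X Y : Set V}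
    (hX : Tight s t r w K X) (hY : Tight s t r w K Y) (hne : (X ∩ Y).Nonempty) :
    Tight s t r w K (X ∩ Y) := by
  obtain ⟨x1, x2, x3, x4⟩ := hX
  obtain ⟨y1, y2, y3, y4⟩ := hY
  have h2 := h1 (X ∩ Y) hne (fun h => x2 h.1) (NoIn.inter x3 y3)
  have h3 := h1 (X ∪ Y) (x1.mono Set.subset_union_left) (by
    rintro (h | h)
    · exact x2 h
    · exact y2 h) (NoIn.union x3 y3)
  have h4 := xs_mod w X Y
  exact ⟨hne, fun h => x2 h.1, NoIn.inter x3 y3, by linarith⟩

theorem tight_least {s t : A → V} {r : V} {w : V → ℤ} {K : ℤ}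
    (h1 : ∀ U : Set V, U.Nonempty → r ∉ U → NoIn s t U → K ≤ xs w U) {y : V}
    (hy : ∃ U, Tight s t r w K U ∧ y ∈ U) :
    ∃ I, Tight s t r w K I ∧ y ∈ I ∧ ∀ U, Tight s t r w K U → y ∈ U → I ⊆ U := by
  obtain ⟨I, hI, hmin⟩ := Set.exists_min_image {U | Tight s t r w K U ∧ y ∈ U}
    (fun U => U.ncard) (Set.toFinite _) hy
  refine ⟨I, hI.1, hI.2, fun U hU hyU => ?_⟩
  have h2 := tight_inter h1 hI.1 hU ⟨y, hI.2, hyU⟩
  have h3 := hmin (I ∩ U) ⟨h2, hI.2, hyU⟩
  have h4 := Set.eq_of_subset_of_ncard_le (Set.inter_subset_left : I ∩ U ⊆ I) h3 (Set.toFinite _)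
  rw [← h4]
  exact Set.inter_subset_right

/-- the key lemma, one half -/
theorem half {s t : A → V} {r : V} {w : V → ℤ} {K : ℤ} {Q : Set V} (hr : r ∈ Q)
    (h1 : ∀ U : Set V, U.Nonempty → r ∉ U → NoIn s t U → K ≤ xs w U)
    (h1' : ∀ U : Set V, U.Nonempty → U ⊆ Qᶜ → NoIn s t U → K < xs w U)
    (h2 : ∀ a, s a ∉ Q → t a ∈ Q →
      ∃ U, r ∉ U ∧ NoIn s t U ∧ s a ∈ U ∧ t a ∉ U ∧ xs w U = K)
    (h3 : ∀ W : Set V, W ⊆ Qᶜ → NoOut s t W → xs w W ≤ 0) :
    xs w Qᶜ ≤ 0 := by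
  obtain ⟨L, hL⟩ : ∃ L : V → Set V, ∀ y, ((∃ U, Tight s t r w K U ∧ y ∈ U) →
      (Tight s t r w K (L y) ∧ y ∈ L y ∧ ∀ U, Tight s t r w K U → y ∈ U → L y ⊆ U)) ∧
      ((¬ ∃ U, Tight s t r w K U ∧ y ∈ U) → L y = Set.univ) := by
    have : ∀ y, ∃ I : Set V, ((∃ U, Tight s t r w K U ∧ y ∈ U) →
      (Tight s t r w K I ∧ y ∈ I ∧ ∀ U, Tight s t r w K U → y ∈ U → I ⊆ U)) ∧
      ((¬ ∃ U, Tight s t r w K U ∧ y ∈ U) → I = Set.univ) := by
      intro y
      by_cases h : ∃ U, Tight s t r w K U ∧ y ∈ U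
      · obtain ⟨I, hI⟩ := tight_least h1 h
        exact ⟨I, fun _ => hI, fun h' => absurd h h'⟩
      · exact ⟨Set.univ, fun h' => absurd h' h, fun _ => rfl⟩
    choose L hL using this
    exact ⟨L, hL⟩
  have hex : ∀ y, L y ≠ Set.univ → ∃ U, Tight s t r w K U ∧ y ∈ U := by
    intro y hy
    by_contra hc
    exact hy ((hL y).2 hc)
  have hnot : ∀ y, L y = Set.univ → ¬ ∃ U, Tight s t r w K U ∧ y ∈ U := by
    intro y hy hc
    have := ((hL y).1 hc).1.2.1
    rw [hy] at this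
    exact this (Set.mem_univ r)
  -- the classes
  have hcls : ∀ I : Set V, ∑ y ∈ univ.filter (fun y => y ∉ Q ∧ L y = I), w y ≤ 0 := by
    intro I
    let E : Set V := {y | y ∉ Q ∧ L y = I}
    have hE : ∑ y ∈ univ.filter (fun y => y ∉ Q ∧ L y = I), w y = xs w E := by
      rw [xs_eq_sum]
      refine sum_congr ?_ fun _ _ => rfl
      ext y
      simp only [mem_filter, mem_univ, true_and, E, Set.mem_ofPred_eq]
    rw [hE]
    by_cases hI : I = Set.univ
    · refine h3 E (fun y hy => hy.1) ?_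
      intro a ha
      have hs : s a ∉ Q := ha.1
      have hn := hnot (s a) (by rw [ha.2, hI])
      have ht : t a ∉ Q := by
        intro htq
        obtain ⟨U, u1, u2, u3, u4, u5⟩ := h2 a hs htq
        exact hn ⟨U, ⟨⟨s a, u3⟩, u1, u2, u5⟩, u3⟩
      refine ⟨ht, ?_⟩
      rw [hI]
      refine (hL (t a)).2 ?_
      rintro ⟨U, hU, htU⟩
      exact hn ⟨U, hU, hU.2.2.1 a htU⟩
    · rcases E.eq_empty_or_nonempty with hEe | ⟨y0, hy0⟩
      · rw [hEe]
        unfold xs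
        simp
      have hIt : Tight s t r w K I := by
        have := ((hL y0).1 (hex y0 (by rw [hy0.2]; exact hI))).1
        rwa [hy0.2] at this
      have hEI : E ⊆ I := by
        intro y hy
        have := ((hL y).1 (hex y (by rw [hy.2]; exact hI))).2.1
        rwa [hy.2] at this
      -- `E` is closed in `I`
      have hup : ∀ a, s a ∈ E → t a ∈ I → t a ∈ E := by
        intro a ha hta
        have htq : t a ∉ Q := by
          intro htq
          obtain ⟨U, u1, u2, u3, u4, u5⟩ := h2 a ha.1 htq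
          have hU : Tight s t r w K U := ⟨⟨s a, u3⟩, u1, u2, u5⟩
          have h5 := ((hL (s a)).1 ⟨U, hU, u3⟩).2.2 U hU u3
          rw [ha.2] at h5
          exact u4 (h5 hta)
        refine ⟨htq, ?_⟩
        obtain ⟨c1, c2, c3⟩ := (hL (t a)).1 ⟨I, hIt, hta⟩
        have h5 : L (t a) ⊆ I := c3 I hIt hta
        have h6 : s a ∈ L (t a) := c1.2.2.1 a c2
        have h7 := ((hL (s a)).1 ⟨_, c1, h6⟩).2.2 _ c1 h6
        rw [ha.2] at h7
        exact Set.Subset.antisymm h5 h7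
      have hno : NoIn s t (I \ E) := by
        intro a ha
        refine ⟨hIt.2.2.1 a ha.1, fun hs => ha.2 (hup a hs ha.1)⟩
      rcases (I \ E).eq_empty_or_nonempty with he | hne
      · exfalso
        have hIE : I ⊆ E := Set.sdiff_eq_empty.1 he
        have h5 := h1' I hIt.1 (fun y hy => (hIE hy).1) hIt.2.2.1
        rw [hIt.2.2.2] at h5
        exact lt_irrefl _ h5
      · have h5 := h1 (I \ E) hne (fun h => hIt.2.1 h.1) hno
        rw [xs_diff w hEI, hIt.2.2.2] at h5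
        linarith
  have hsum : xs w Qᶜ = ∑ I ∈ univ.image L, ∑ y ∈ univ.filter (fun y => y ∉ Q ∧ L y = I), w y := by
    rw [xs_eq_sum]
    rw [← sum_fiberwise_of_maps_to (g := L) (t := univ.image L) (fun y _ => mem_image_of_mem L (mem_univ y))]
    refine sum_congr rfl fun I _ => ?_
    refine sum_congr ?_ fun _ _ => rfl
    ext y
    simp only [mem_filter, mem_univ, true_and, Set.mem_compl_iff]
  rw [hsum]
  exact sum_nonpos fun I _ => hcls I

end AO9e
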