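import Pool.Agent.Lib_MP_9e7d46_ao.Grow
import Pool.Agent.Lib_MP_9e7d46_os.Flow

/-!
# From the oriented join to an orientation
-/

set_option autoImplicit false
set_option linter.unusedSectionVars false

namespace AO9e
open Finset Classical Pool.Agent.DJ9e OS9e

variable {V A : Type} [Fintype V] [Fintype A]

/-- a pairing of the vertices of odd degree in `F` -/
theorem pair_F (s t : A → V) (F : Finset A) [Nonempty V] :
    ∃ μ : V → V, (∀ v, μ (μ v) = v) ∧ (∀ v, μ v ≠ v ↔ dg s t F v = 1) ∧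
      ∀ U : Set V, dM μ U ≤ dF s t F U := by
  obtain ⟨p⟩ := ‹Nonempty V›
  obtain ⟨μ, h1, h2, h3, -⟩ := flow_pair 0 (fun a : {a // a ∈ F} => s a) (fun a => t a) p p
    (fun U _ _ _ => by simp)
  have hd : ∀ U : Set V, dd (fun a : {a // a ∈ F} => s a) (fun a => t a) U = dF s t F U := by
    intro U
    unfold dd dF
    exact sum_coe_sort F (fun a => if (s a ∈ U ↔ t a ∈ U) then 0 else 1)
  refine ⟨μ, h1, fun v => ?_, fun U => ?_⟩
  · rw [h2 v, hd, ← dF_dg]
    rw [← ZMod.natCast_eq_one_iff_odd]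
  · rw [← hd]
    exact h3 U

theorem dF_add_compl (s t : A → V) (F : Finset A) (U : Set V) :
    dF s t F U + dF s t Fᶜ U = dd s t U := by
  unfold dF dd
  exact sum_add_sum_compl F _

theorem dg_add_compl (s t : A → V) (F : Finset A) (v : V) :
    dg s t F v + dg s t Fᶜ v = dg s t univ v := by
  unfold dg
  exact sum_add_sum_compl F _

theorem zmod_odd (a : ℤ) : Odd a ↔ (a : ZMod 2) = 1 := (ZMod.intCast_eq_one_iff_odd).symm

/-- the value added at the root -/
noncomputable def chi (r : V) (m : ℤ) (v : V) : ℤ := if v = r then m else 0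

theorem xs_chi (r : V) (m : ℤ) (U : Set V) : xs (chi r m) U = if r ∈ U then m else 0 := by
  unfold xs chi
  have : ∀ u, (if u ∈ U then (if u = r then m else 0) else 0) =
      if u = r then (if r ∈ U then m else 0) else 0 := by
    intro u
    by_cases h1 : u = r
    · subst h1
      simp
    · simp [h1]
  rw [sum_congr rfl fun u _ => this u, sum_ite_eq', if_pos (mem_univ r)]

/-- signs for the two classes -/
theorem signs {k : ℕ} (hk : 3 ≤ k) (s t : A → V) (r : V) (J₁ J₂ : Finset A)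
    (hdj : Disjoint J₁ J₂) (hc1 : Cap t s r (2 * k) J₁) (hc2 : Cap s t r (2 * k) J₂)
    (hdg : ∀ v, dg s t (J₁ ∪ J₂) v = dg s t univ v) :
    ∃ σ : V → ℤ, (∀ u, Even (σ u + (dd s t {u} : ℤ))) ∧ xs σ Set.univ = 0 ∧
      (∀ U : Set V, |xs σ U| ≤ dd s t U) ∧
      ∀ U : Set V, U.Nonempty → r ∉ U → Sh s t U → |xs σ U| ≤ dd s t U - 2 * k := by
  haveI : Nonempty V := ⟨r⟩
  obtain ⟨μ₁, m1, o1, b1⟩ := pair_F s t J₁
  obtain ⟨μ₂, m2, o2, b2⟩ := pair_F s t J₂
  -- degrees
  have hdg' : ∀ v, dg s t J₁ v + dg s t J₂ v = dg s t univ v := by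
    intro v
    rw [← dg_union s t hdj, hdg]
  have hcomp : ∀ F v, dg s t Fᶜ v = dg s t univ v + dg s t F v := by
    intro F v
    rw [← dg_add_compl s t F v]
    have htwo : ∀ z w : ZMod 2, w = z + w + z := by decide
    exact htwo _ _
  have e1 : ∀ v, dg s t J₂ᶜ v = dg s t J₁ v := by
    intro v
    rw [hcomp, ← hdg' v]
    have htwo : ∀ z w : ZMod 2, z + w + w = z := by decide
    exact htwo _ _
  have e2 : ∀ v, dg s t J₁ᶜ v = dg s t J₂ v := by
    intro v
    rw [hcomp, ← hdg' v]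
    have htwo : ∀ z w : ZMod 2, z + w + z = w := by decide
    exact htwo _ _
  let y : V ⊕ V → ℤ := Sum.elim (fun v => - bF s t J₂ᶜ v - chi r (2 * k) v)
    (fun v => bF s t J₁ᶜ v - chi r (2 * k) v)
  have hchi : ∀ v, ((chi r (2 * k : ℤ) v : ℤ) : ZMod 2) = 0 := by
    intro v
    unfold chi
    have h2 : (2 : ZMod 2) = 0 := by decide
    split_ifs <;> simp [h2]
  have hy1 : ∀ v, Odd (y (Sum.inl v)) ↔ μ₁ v ≠ v := by
    intro v
    rw [o1 v, zmod_odd]
    show ((- bF s t J₂ᶜ v - chi r (2 * k) v : ℤ) : ZMod 2) = 1 ↔ _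
    push_cast
    rw [hchi, bF_dg, e1, sub_zero, ZMod.neg_eq_self_mod_two]
  have hy2 : ∀ v, Odd (y (Sum.inr v)) ↔ μ₂ v ≠ v := by
    intro v
    rw [o2 v, zmod_odd]
    show ((bF s t J₁ᶜ v - chi r (2 * k) v : ℤ) : ZMod 2) = 1 ↔ _
    push_cast
    rw [hchi, bF_dg, e2, sub_zero]
  let R : V ⊕ V → V ⊕ V → Prop := fun p q => match p, q with
    | Sum.inl u, Sum.inl v => Rch s t v u
    | Sum.inr u, Sum.inr v => Rch s t u v
    | _, _ => False
  let μ : V ⊕ V → V ⊕ V := Sum.map μ₁ μ₂
  have hx1 : ∀ U : Set V, NoIn s t U →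
      xs (fun v => y (Sum.inl v)) U = -(dF s t J₂ᶜ U : ℤ) - if r ∈ U then (2 * k : ℤ) else 0 := by
    intro U hU
    have : (fun v => y (Sum.inl v)) = fun v => (fun w => - bF s t J₂ᶜ w) v - chi r (2 * k) v := rfl
    rw [this, xs_sub', xs_neg', xs_bF_noIn s t _ U hU, xs_chi]
  have hx2 : ∀ U : Set V, NoOut s t U →
      xs (fun v => y (Sum.inr v)) U = -(dF s t J₁ᶜ U : ℤ) - if r ∈ U then (2 * k : ℤ) else 0 := by
    intro U hU
    have : (fun v => y (Sum.inr v)) = fun v => bF s t J₁ᶜ v - chi r (2 * k) v := rfl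
    rw [this, xs_sub', xs_bF_noOut s t _ U hU, xs_chi]
  have hle1 : ∀ U : Set V, U.Nonempty → NoIn s t U →
      xs (fun v => y (Sum.inl v)) U ≤ -(2 * k : ℤ) := by
    intro U hU hin
    rw [hx1 U hin]
    by_cases hr : r ∈ U
    · rw [if_pos hr]
      have : (0 : ℤ) ≤ dF s t J₂ᶜ U := by positivity
      linarith
    · rw [if_neg hr]
      have h1 := hc2 U hU hr hin
      have h2 := dF_add_compl s t J₂ U
      have h3 : 2 * k ≤ dF s t J₂ᶜ U := by omega
      have h4 : (2 * k : ℤ) ≤ dF s t J₂ᶜ U := by exact_mod_cast h3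
      linarith
  have hle2 : ∀ U : Set V, U.Nonempty → NoOut s t U →
      xs (fun v => y (Sum.inr v)) U ≤ -(2 * k : ℤ) := by
    intro U hU hin
    rw [hx2 U hin]
    by_cases hr : r ∈ U
    · rw [if_pos hr]
      have : (0 : ℤ) ≤ dF s t J₁ᶜ U := by positivity
      linarith
    · rw [if_neg hr]
      have h1 := hc1 U hU hr hin
      rw [dF_swap, dd_swap] at h1
      have h2 := dF_add_compl s t J₁ U
      have h3 : 2 * k ≤ dF s t J₁ᶜ U := by omega
      have h4 : (2 * k : ℤ) ≤ dF s t J₁ᶜ U := by exact_mod_cast h3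
      linarith
  -- sums over finsets of the sum type
  have hsplit : ∀ (f : V ⊕ V → ℤ) (Z : Finset (V ⊕ V)), ∑ p ∈ Z, f p =
      xs (fun v => f (Sum.inl v)) {v | Sum.inl v ∈ Z} +
      xs (fun v => f (Sum.inr v)) {v | Sum.inr v ∈ Z} := by
    intro f Z
    have e1 : ∑ p ∈ Z, f p = ∑ p : V ⊕ V, if p ∈ Z then f p else 0 := by
      rw [← sum_filter]
      congr 1
      ext p
      simp
    rw [e1, Fintype.sum_sum_type]
    unfold xs
    simp only [Set.mem_ofPred_eq]
  have hcl1 : ∀ Z : Finset (V ⊕ V), (∀ u ∈ Z, ∀ v, R u v → v ∈ Z) →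
      NoIn s t {v | Sum.inl v ∈ Z} := by
    intro Z hZ
    exact noIn_of_closed fun u hu v huv => hZ (Sum.inl u) hu (Sum.inl v) huv
  have hcl2 : ∀ Z : Finset (V ⊕ V), (∀ u ∈ Z, ∀ v, R u v → v ∈ Z) →
      NoOut s t {v | Sum.inr v ∈ Z} := by
    intro Z hZ
    exact noOut_of_closed fun u hu v huv => hZ (Sum.inr u) hu (Sum.inr v) huv
  have hempty : ∀ f : V → ℤ, xs f ∅ = 0 := by
    intro f
    unfold xs
    simp
  have hk0 : (0 : ℤ) ≤ 2 * k := by positivity
  obtain ⟨ε, hε1, hε2, hε3⟩ := slot hk (R := R)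
    (by
      rintro (v | v)
      · exact Relation.ReflTransGen.refl
      · exact Relation.ReflTransGen.refl)
    (by
      rintro (u | u) (v | v) (w | w) h1 h2
      · exact Relation.ReflTransGen.trans h2 h1
      · exact h2
      · exact h1.elim
      · exact h1.elim
      · exact h1.elim
      · exact h1.elim
      · exact h2.elim
      · exact Relation.ReflTransGen.trans h1 h2) y
    (by
      intro Z hZ hZc
      rw [hsplit]
      rcases ({v | Sum.inl v ∈ Z} : Set V).eq_empty_or_nonempty with h1 | h1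
      · rcases ({v | Sum.inr v ∈ Z} : Set V).eq_empty_or_nonempty with h2 | h2
        · exfalso
          obtain ⟨(v | v), hv⟩ := hZ
          · have : v ∈ ({v | Sum.inl v ∈ Z} : Set V) := hv
            rw [h1] at this
            exact this
          · have : v ∈ ({v | Sum.inr v ∈ Z} : Set V) := hv
            rw [h2] at this
            exact this
        · rw [h1, hempty, zero_add]
          exact hle2 _ h2 (hcl2 Z hZc)
      · have h3 := hle1 _ h1 (hcl1 Z hZc)
        rcases ({v | Sum.inr v ∈ Z} : Set V).eq_empty_or_nonempty with h2 | h2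
        · rw [h2, hempty, add_zero]
          exact h3
        · have h4 := hle2 _ h2 (hcl2 Z hZc)
          linarith)
    μ (by
      rintro (v | v)
      · exact congrArg Sum.inl (m1 v)
      · exact congrArg Sum.inr (m2 v))
    (by
      rintro (v | v)
      · show Odd (y (Sum.inl (μ₁ v))) ↔ Odd (y (Sum.inl v))
        rw [hy1, hy1, m1]
        exact ne_comm
      · show Odd (y (Sum.inr (μ₂ v))) ↔ Odd (y (Sum.inr v))
        rw [hy2, hy2, m2]
        exact ne_comm)
  let σ₁ : V → ℤ := fun v => if Odd (y (Sum.inl v)) then ε (Sum.inl v) else 0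
  let σ₂ : V → ℤ := fun v => if Odd (y (Sum.inr v)) then ε (Sum.inr v) else 0
  have ha1 : ∀ v, σ₁ (μ₁ v) = - σ₁ v := by
    intro v
    simp only [σ₁]
    by_cases h : Odd (y (Sum.inl v))
    · have h' : Odd (y (Sum.inl (μ₁ v))) := by
        rw [hy1] at h ⊢
        rw [m1]
        exact h.symm
      rw [if_pos h, if_pos h']
      exact hε2 (Sum.inl v) h (fun hc => (hy1 v).1 h (Sum.inl_injective hc))
    · have h' : ¬ Odd (y (Sum.inl (μ₁ v))) := by
        rw [hy1] at h ⊢
        rw [m1]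
        exact fun hc => h hc.symm
      rw [if_neg h, if_neg h', neg_zero]
  have ha2 : ∀ v, σ₂ (μ₂ v) = - σ₂ v := by
    intro v
    simp only [σ₂]
    by_cases h : Odd (y (Sum.inr v))
    · have h' : Odd (y (Sum.inr (μ₂ v))) := by
        rw [hy2] at h ⊢
        rw [m2]
        exact h.symm
      rw [if_pos h, if_pos h']
      exact hε2 (Sum.inr v) h (fun hc => (hy2 v).1 h (Sum.inr_injective hc))
    · have h' : ¬ Odd (y (Sum.inr (μ₂ v))) := by
        rw [hy2] at h ⊢
        rw [m2]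
        exact fun hc => h hc.symm
      rw [if_neg h, if_neg h', neg_zero]
  have hab : ∀ p, |if Odd (y p) then ε p else 0| ≤ 1 := by
    intro p
    split_ifs
    · rcases hε1 p with h | h <;> rw [h] <;> simp
    · simp
  have hb1 : ∀ U : Set V, |xs σ₁ U| ≤ dF s t J₁ U := fun U =>
    (abs_xs_le μ₁ m1 σ₁ ha1 (fun v => hab (Sum.inl v)) U).trans (by exact_mod_cast b1 U)
  have hb2 : ∀ U : Set V, |xs σ₂ U| ≤ dF s t J₂ U := fun U =>
    (abs_xs_le μ₂ m2 σ₂ ha2 (fun v => hab (Sum.inr v)) U).trans (by exact_mod_cast b2 U)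
  refine ⟨fun v => σ₁ v + σ₂ v, ?_, ?_, ?_, ?_⟩
  · intro u
    have hpar : ∀ (z : ℤ), (z = 1 ∨ z = -1) → (z : ZMod 2) = 1 := by
      rintro z (h | h) <;> rw [h] <;> decide
    have q1 : ((σ₁ u : ℤ) : ZMod 2) = dg s t J₁ u := by
      simp only [σ₁]
      by_cases h : Odd (y (Sum.inl u))
      · rw [if_pos h, hpar _ (hε1 _)]
        rw [hy1, o1] at h
        exact h.symm
      · rw [if_neg h]
        rw [hy1, o1] at h
        have h01 : ∀ z : ZMod 2, z ≠ 1 → 0 = z := by decide
        push_cast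
        exact h01 _ h
    have q2 : ((σ₂ u : ℤ) : ZMod 2) = dg s t J₂ u := by
      simp only [σ₂]
      by_cases h : Odd (y (Sum.inr u))
      · rw [if_pos h, hpar _ (hε1 _)]
        rw [hy2, o2] at h
        exact h.symm
      · rw [if_neg h]
        rw [hy2, o2] at h
        have h01 : ∀ z : ZMod 2, z ≠ 1 → 0 = z := by decide
        push_cast
        exact h01 _ h
    have q3 : (((dd s t {u} : ℕ) : ℤ) : ZMod 2) = dg s t univ u := by
      rw [← dF_dg, dF_univ]
      push_cast
      rfl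
    rw [← ZMod.intCast_eq_zero_iff_even]
    push_cast
    rw [q1, q2, hdg' u]
    rw [Int.cast_natCast] at q3
    rw [q3]
    have htwo : ∀ z : ZMod 2, z + z = 0 := by decide
    exact htwo _
  · rw [xs_add']
    have hz : ∀ F : Finset A, dF s t F Set.univ = 0 := by
      intro F
      unfold dF
      simp
    have z1 := hb1 Set.univ
    have z2 := hb2 Set.univ
    rw [hz] at z1 z2
    have z1' : xs σ₁ Set.univ = 0 := abs_eq_zero.1 (le_antisymm z1 (abs_nonneg _))
    have z2' : xs σ₂ Set.univ = 0 := abs_eq_zero.1 (le_antisymm z2 (abs_nonneg _))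
    rw [z1', z2', add_zero]
  · intro U
    rw [xs_add']
    have h1 := hb1 U
    have h2 := hb2 U
    have h3 : dF s t J₁ U + dF s t J₂ U ≤ dd s t U := by
      rw [← dF_union s t hdj]
      exact dF_mono s t (subset_univ _) U
    have h3' : (dF s t J₁ U : ℤ) + dF s t J₂ U ≤ dd s t U := by exact_mod_cast h3
    exact (abs_add_le _ _).trans (by linarith)
  · intro U hU hr hS
    rw [xs_add']
    refine (abs_add_le _ _).trans ?_
    rcases hS with hS | hS
    · let Z : Finset (V ⊕ V) := univ.filter fun p => ∃ v ∈ U, p = Sum.inl v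
      have hZl : ({v | Sum.inl v ∈ Z} : Set V) = U := by
        ext v
        simp [Z]
      have hZr : ({v | Sum.inr v ∈ Z} : Set V) = ∅ := by
        ext v
        simp [Z]
      obtain ⟨u0, hu0⟩ := hU
      have h1 := hε3 Z ⟨Sum.inl u0, by simp [Z, hu0]⟩ (by
        rintro (u | u) hu (v | v) huv
        · have hu' : u ∈ ({v | Sum.inl v ∈ Z} : Set V) := hu
          have : v ∈ ({v | Sum.inl v ∈ Z} : Set V) := by
            rw [hZl] at hu' ⊢
            exact closed_of_noIn (s := s) (t := t) hS hu' huv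
          exact this
        · exact huv.elim
        · exact huv.elim
        · exfalso
          have : u ∈ ({v | Sum.inr v ∈ Z} : Set V) := hu
          rw [hZr] at this
          exact this)
      rw [hsplit, hsplit, hZl, hZr, hempty, hempty, add_zero, add_zero, hx1 U hS, if_neg hr] at h1
      have h2 := hb2 U
      have h3 := dF_add_compl s t J₂ U
      have h3' : (dF s t J₂ U : ℤ) + dF s t J₂ᶜ U = dd s t U := by exact_mod_cast h3
      have h4 : |xs σ₁ U| ≤ -(-(dF s t J₂ᶜ U : ℤ) - 0) - 2 * k := h1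
      linarith
    · let Z : Finset (V ⊕ V) := univ.filter fun p => ∃ v ∈ U, p = Sum.inr v
      have hZl : ({v | Sum.inr v ∈ Z} : Set V) = U := by
        ext v
        simp [Z]
      have hZr : ({v | Sum.inl v ∈ Z} : Set V) = ∅ := by
        ext v
        simp [Z]
      obtain ⟨u0, hu0⟩ := hU
      have h1 := hε3 Z ⟨Sum.inr u0, by simp [Z, hu0]⟩ (by
        rintro (u | u) hu (v | v) huv
        · exfalso
          have : u ∈ ({v | Sum.inl v ∈ Z} : Set V) := hu
          rw [hZr] at this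
          exact this
        · exact huv.elim
        · exact huv.elim
        · have hu' : u ∈ ({v | Sum.inr v ∈ Z} : Set V) := hu
          have : v ∈ ({v | Sum.inr v ∈ Z} : Set V) := by
            rw [hZl] at hu' ⊢
            exact closed_of_noOut (s := s) (t := t) hS hu' huv
          exact this)
      rw [hsplit, hsplit, hZl, hZr, hempty, hempty, zero_add, zero_add, hx2 U hS, if_neg hr] at h1
      have h2 := hb1 U
      have h3 := dF_add_compl s t J₁ U
      have h3' : (dF s t J₁ U : ℤ) + dF s t J₁ᶜ U = dd s t U := by exact_mod_cast h3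
      have h4 : |xs σ₂ U| ≤ -(-(dF s t J₁ᶜ U : ℤ) - 0) - 2 * k := h1
      linarith

theorem orient_fin {k : ℕ} (hk : 3 ≤ k) (s t : A → V) (r : V) (hF : Fin9 s t r (2 * k)) :
    ∃ O : A → Bool, ∀ U : Set V, U.Nonempty → Uᶜ.Nonempty → Sh s t U → k ≤ inn s t O U := by
  obtain ⟨J₁, J₂, hdj, hc1, hc2, hdg⟩ := hF
  obtain ⟨σ, h1, h2, h3, h4⟩ := signs hk s t r J₁ J₂ hdj hc1 hc2 hdg
  obtain ⟨O, hO⟩ := hakimi s t σ h1 h2 (fun U => (le_abs_self _).trans (h3 U))
  have hcomp : ∀ U : Set V, xs σ Uᶜ = - xs σ U := by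
    intro U
    have := xs_add_compl σ U
    rw [h2] at this
    linarith
  refine ⟨O, fun U hU hUc hS => ?_⟩
  have hb : |xs σ U| ≤ dd s t U - 2 * k := by
    by_cases hr : r ∈ U
    · have := h4 Uᶜ hUc (fun h => h hr) ((Sh_compl s t U).2 hS)
      rw [hcomp, abs_neg, dd_compl] at this
      exact this
    · exact h4 U hU hr hS
  have h5 := hO U
  have h6 := inn_add_compl s t O U
  have h7 := (abs_le.1 hb).2
  zify
  zify at h6
  linarith

end AO9e
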